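import Pool.Agent.P3G.Twelve

/-!
For facets with at most twelve vertices Euler's inequality, with a larger constant, and parity are sufficient; facets with more than twelve
vertices are allowed if there are enough triangles (MP_a5fcbe_co).
-/

set_option autoImplicit false

namespace Pool.Agent.Results.MP_a5fcbe_co.EulerUpToConstant

open Pool.Agent.P3F

/-- Let `p` be a sequence with `p 0 = p 1 = p 2 = 0`, let `t = p 3 - ∑_{k ≥ 13} (k - 12) p_k`, and suppose that `t ≥ 2`, `t + p 4 ≥ 4`,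
that `p 5 ≥ 1` or `t ≥ 24`, and that `3 t + 2 p 4 + p 5 ≥ 216 + ∑_{7 ≤ k ≤ 12} (k - 6) p_k + 6 ∑_{k ≥ 13} p_k`.
Then there is a convex polyhedron with exactly `p k` faces with `k` vertices, for all `k`, if and only if `∑ k p_k` is even. -/
theorem result (p : ℕ →₀ ℕ) (h3 : ∀ k, k < 3 → p k = 0) (t : ℕ)
    (ht : t + ∑ k ∈ p.support with 13 ≤ k, (k - 12) * p k = p 3) (h2 : 2 ≤ t)
    (h4 : 4 ≤ t + p 4) (h5 : 1 ≤ p 5 ∨ 24 ≤ t)
    (h : 216 + ∑ k ∈ p.support with 7 ≤ k ∧ k ≤ 12, (k - 6) * p k +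
      6 * ∑ k ∈ p.support with 13 ≤ k, p k ≤ 3 * t + 2 * p 4 + p 5) :
    IsCensus p ↔ Even (p.sum fun k m => k * m) :=
  P3G.thm3 h3 ht h2 h4 h5 h

end Pool.Agent.Results.MP_a5fcbe_co.EulerUpToConstant
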