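import Pool.Agent.P3F.Main

/-!
All facet censuses of 3-polytopes with sufficiently many facets with at least 24 vertices (MP_a5fcbe_co).
-/

set_option autoImplicit false

namespace Pool.Agent.Results.MP_a5fcbe_co.ManyLarge

open Pool.Agent.P3F

/-- Let `p` be a sequence with `p 0 = p 1 = p 2 = 0` such that twice the number of the `k`-gons with `k ≥ 24` is at least the
number of the `k`-gons with `4 ≤ k ≤ 11` plus 5.  Then `p` is the facet census of a 3-polytope if and only if
`∑ k p_k` is even and `∑ p_k max (k - 10, 2 - k) ≤ -20`. -/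
theorem result (p : ℕ →₀ ℕ) (h3 : ∀ k, k < 3 → p k = 0)
    (hX : (∑ k ∈ p.support with 4 ≤ k ∧ k ≤ 11, p k) + 5 ≤ 2 * ∑ k ∈ p.support with 24 ≤ k, p k) :
    IsCensus p ↔ Even (p.sum fun k m => k * m) ∧
      (p.sum fun k m => (m : ℤ) * max ((k : ℤ) - 10) (2 - (k : ℤ))) ≤ -20 := by
  have h := main p h3 (Or.inr (by
    rw [cnt, cnt, Finsupp.sum, Finsupp.sum, ← Finset.sum_filter, ← Finset.sum_filter]
    exact hX))
  rw [h]
  simp only [mul_comm]

end Pool.Agent.Results.MP_a5fcbe_co.ManyLarge
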