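import Pool.Agent.P3G.Thm

/-!
All facet censuses of 3-polytopes with at most as many vertices as facets, and a theorem of Eberhard type in which the number
of hexagons is prescribed (MP_a5fcbe_co).
-/

set_option autoImplicit false

namespace Pool.Agent.Results.MP_a5fcbe_co.PrescribedHexagons

open Pool.Agent.P3F

/-- Let `p` be a sequence with `p 0 = p 1 = p 2 = 0`.  Suppose that `p 3 ≥ 4 + ∑_{k ≥ 5} (k - 4) p_k`, or that
`p 3 ≥ 2`, `p 3 + p 4 ≥ 4`, `p 5 ≥ 1` and that there is an `m ≥ 6` with `p 3 + 2 p 4 + p 5 ≥ m + 5 + ∑_{k ≥ 7} (k - 6) p_k`, such that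
`∑_{k > m} p_k ≤ 2` or `∑_{k > m} (k - m) p_k ≤ p 3 - 2`.
Then there is a convex polyhedron with exactly `p k` faces with `k` vertices, for all `k`, if and only if
`∑ k p_k` is even and `k + 1 ≤ ∑ p_j` for all `k` with `p_k > 0`. -/
theorem result (p : ℕ →₀ ℕ) (h3 : ∀ k, k < 3 → p k = 0)
    (h : (∑ k ∈ p.support with 5 ≤ k, (k - 4) * p k) + 4 ≤ p 3 ∨
      (2 ≤ p 3 ∧ 4 ≤ p 3 + p 4 ∧ 1 ≤ p 5 ∧ ∃ m, 6 ≤ m ∧
        m + 5 + ∑ k ∈ p.support with 7 ≤ k, (k - 6) * p k ≤ p 3 + 2 * p 4 + p 5 ∧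
        (∑ k ∈ p.support with m < k, p k ≤ 2 ∨
          (∑ k ∈ p.support with m < k, (k - m) * p k) + 2 ≤ p 3))) :
    IsCensus p ↔ Even (p.sum fun k m => k * m) ∧
      ∀ k ∈ p.support, k + 1 ≤ ∑ j ∈ p.support, p j := by
  rcases h with h | ⟨h1, h2, h4, m, h5, h6, h7⟩
  · have h8 := P3G.thm1 h3 h
    exact ⟨fun h => ⟨h8.1 h, P3G.nec_one h⟩, fun h => h8.2 h.1⟩
  · exact P3G.thm2 h3 h5 h1 h2 h4 h6 h7

end Pool.Agent.Results.MP_a5fcbe_co.PrescribedHexagons
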