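import Pool.Agent.P3F.MainB

/-!
All facet censuses of 3-polytopes without `k`-gons for `4 ≤ k ≤ 11` (MP_a5fcbe_co).
-/

set_option autoImplicit false

namespace Pool.Agent.Results.MP_a5fcbe_co.TrianglesAndLarge

open Pool.Agent.P3F

/-- Let `p` be a sequence with `p k = 0` for all `k < 12`, `k ≠ 3`; let `b` be the sum of the `p k` and `K` the sum of the
`k * p k`, both over `k ≥ 12`.  Then `p` is the facet census of a 3-polytope if and only if `p 3 + K` is even and
`4 ≤ p 3` if `b = 0`, `K ≤ p 3` if `b = 1`, `K ≤ p 3 + 4` if `b = 2`, `K + 20 ≤ p 3 + 10 * b` if `b ≥ 3`. -/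
theorem result (p : ℕ →₀ ℕ) (hp : ∀ k, k < 12 → k ≠ 3 → p k = 0) (b K : ℕ)
    (hb : b = ∑ k ∈ p.support with 12 ≤ k, p k) (hK : K = ∑ k ∈ p.support with 12 ≤ k, k * p k) :
    IsCensus p ↔ Even (p 3 + K) ∧
      ((b = 0 ∧ 4 ≤ p 3) ∨ (b = 1 ∧ K ≤ p 3) ∨ (b = 2 ∧ K ≤ p 3 + 4) ∨
        (3 ≤ b ∧ K + 20 ≤ p 3 + 10 * b)) := by
  have hb' : b = cnt p fun k => 12 ≤ k := by
    rw [hb, cnt, Finsupp.sum, Finset.sum_filter]
  have hK' : K = p.sum fun k m => if 12 ≤ k then m * k else 0 := by
    rw [hK, Finsupp.sum, Finset.sum_filter]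
    exact Finset.sum_congr rfl fun k _ => by split_ifs <;> simp [mul_comm]
  have hsum : (p.sum fun k m => m * k) = 3 * p 3 + K := by
    have h1 : (p.sum fun k m => m * k) =
        ∑ k ∈ p.support, ((if k = 3 then 3 * p 3 else 0) + if 12 ≤ k then p k * k else 0) := by
      rw [Finsupp.sum]
      refine Finset.sum_congr rfl fun k hk => ?_
      have hk' := Finsupp.mem_support_iff.1 hk
      by_cases h12 : 12 ≤ k
      · rw [if_neg (by omega), if_pos h12, zero_add]
      · have : k = 3 := by
          by_contra h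
          exact hk' (hp k (by omega) h)
        subst this
        simp [mul_comm]
    rw [h1, Finset.sum_add_distrib, hK', Finsupp.sum]
    congr 1
    rw [Finset.sum_ite_eq' p.support 3]
    split_ifs with h
    · rfl
    · rw [Finsupp.notMem_support_iff.1 h, mul_zero]
  have hev : Even (p.sum fun k m => m * k) ↔ Even (p 3 + K) := by
    rw [hsum, Nat.even_iff, Nat.even_iff]
    omega
  have hw : (p.sum fun k m => (m : ℤ) * max ((k : ℤ) - 10) (2 - (k : ℤ))) =
      (K : ℤ) - 10 * b - p 3 := by
    have h1 : (p.sum fun k m => (m : ℤ) * max ((k : ℤ) - 10) (2 - (k : ℤ))) =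
        ∑ k ∈ p.support, ((if k = 3 then -(p 3 : ℤ) else 0) +
          (if 12 ≤ k then ((k * p k : ℕ) : ℤ) else 0) + if 12 ≤ k then -10 * (p k : ℤ) else 0) := by
      rw [Finsupp.sum]
      refine Finset.sum_congr rfl fun k hk => ?_
      have hk' := Finsupp.mem_support_iff.1 hk
      by_cases h12 : 12 ≤ k
      · rw [if_neg (by omega), if_pos h12, if_pos h12, max_eq_left (by omega)]
        push_cast
        ring
      · have : k = 3 := by
          by_contra h
          exact hk' (hp k (by omega) h)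
        subst this
        simp
    rw [h1, Finset.sum_add_distrib, Finset.sum_add_distrib, hb, hK, Finset.sum_ite_eq' p.support 3,
      Finset.sum_filter, Finset.sum_filter]
    have h2 : (if 3 ∈ p.support then -(p 3 : ℤ) else 0) = -(p 3 : ℤ) := by
      split_ifs with h
      · rfl
      · rw [Finsupp.notMem_support_iff.1 h]
        simp
    rw [h2]
    push_cast
    have h3 : ∀ x : ℕ, (if 12 ≤ x then -10 * (p x : ℤ) else 0) =
        -10 * if 12 ≤ x then (p x : ℤ) else 0 := fun x => by split_ifs <;> simp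
    simp only [h3]
    rw [← Finset.mul_sum]
    ring
  rw [← hev]
  rcases Nat.lt_or_ge b 3 with h | h
  · constructor
    · intro hc
      have h1 := (nec hc).1
      rw [sum_eq] at h1
      obtain ⟨n0, n1, n2⟩ := nec_small hp hc
      rw [← hb', ← hK'] at *
      refine ⟨h1, ?_⟩
      rcases (by omega : b = 0 ∨ b = 1 ∨ b = 2) with h | h | h
      · exact Or.inl ⟨h, n0 h⟩
      · exact Or.inr (Or.inl ⟨h, n1 h⟩)
      · exact Or.inr (Or.inr (Or.inl ⟨h, n2 h⟩))
    · rintro ⟨h1, h2⟩
      refine suf_small hp h1 (by rw [← hb']; omega) ?_ ?_ ?_ <;>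
        · rw [← hb']
          try rw [← hK']
          intro h3
          omega
  · rw [main p (fun k hk => hp k (by omega) (by omega))
      (Or.inl ⟨fun k h4 h11 => hp k (by omega) (by omega), by rw [← hb']; exact h⟩), hw]
    refine and_congr_right fun _ => ?_
    constructor
    · intro h1
      exact Or.inr (Or.inr (Or.inr ⟨h, by omega⟩))
    · intro h1
      omega

end Pool.Agent.Results.MP_a5fcbe_co.TrianglesAndLarge
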